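import Pool.Agent.Q60.D3E.Stm

/-!
# Project D3G, job ISO
-/

set_option autoImplicit false

namespace Pool.Agent.Q58.D3G

open Module
open Pool.Agent.W547.KB (CMPair CMAV)
open Pool.Agent.Q60.D3 (AV IsHom IsIsogenousToProd)
open Pool.Agent.Q60.D3E (IsoCM)

/-- The tangent map of an isogeny to a product is bijective. -/
lemma tan_bij {ι : Type} [Fintype ι] [DecidableEq ι] (Y : AV) (B : ι → AV)
    (p : ∀ i, Y.H →ₗ[ℚ] (B i).H)
    (hb : Function.Bijective fun (v : Y.H) (i : ι) => p i v)
    (C : ∀ i, Y.T →ₗ[ℂ] (B i).T) (hC : ∀ i w, C i (Y.per w) = (B i).per (p i w)) :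
    Function.Bijective (LinearMap.pi C : Y.T →ₗ[ℂ] ∀ i, (B i).T) := by
  have hsurj : Function.Surjective (LinearMap.pi C : Y.T →ₗ[ℂ] ∀ i, (B i).T) := by
    let R : Submodule ℝ (∀ i, (B i).T) :=
      LinearMap.range ((LinearMap.pi C : Y.T →ₗ[ℂ] ∀ i, (B i).T).restrictScalars ℝ)
    have h1 : ∀ (i : ι) (t : (B i).T), Pi.single i t ∈ R := by
      intro i t
      have ht : t ∈ Submodule.span ℝ (Set.range (B i).per) := by
        rw [(B i).span]; exact Submodule.mem_top
      induction ht using Submodule.span_induction with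
      | mem t h =>
        obtain ⟨w, rfl⟩ := h
        obtain ⟨v, hv⟩ := hb.2 (Pi.single i w)
        refine ⟨Y.per v, ?_⟩
        funext k
        change C k (Y.per v) = _
        rw [hC k v]
        have hk : p k v = (Pi.single i w : ∀ i, (B i).H) k := congrFun hv k
        rw [hk]
        by_cases hki : k = i
        · subst hki
          rw [Pi.single_eq_same, Pi.single_eq_same]
        · rw [Pi.single_eq_of_ne hki, Pi.single_eq_of_ne hki, map_zero]
      | zero => rw [Pi.single_zero]; exact Submodule.zero_mem _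
      | add a b _ _ ha hb' => rw [Pi.single_add]; exact Submodule.add_mem _ ha hb'
      | smul c a _ ha =>
        have : Pi.single i (c • a) = c • (Pi.single i a : ∀ i, (B i).T) := by
          rw [Pi.single_smul]
        rw [this]; exact Submodule.smul_mem _ _ ha
    intro t
    have h2 : t ∈ R := by
      rw [← Finset.univ_sum_single t]
      exact Submodule.sum_mem _ fun i _ => h1 i (t i)
    obtain ⟨y, hy⟩ := h2
    exact ⟨y, hy⟩
  have hfin : finrank ℂ Y.T = finrank ℂ (∀ i, (B i).T) := by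
    have e1 : finrank ℚ Y.H = finrank ℚ (∀ i, (B i).H) :=
      (LinearEquiv.ofBijective (LinearMap.pi p) hb).finrank_eq
    rw [Y.dim, finrank_pi_fintype] at e1
    rw [finrank_pi_fintype]
    have e2 : ∑ i, finrank ℚ (B i).H = 2 * ∑ i, finrank ℂ (B i).T := by
      rw [Finset.mul_sum]
      exact Finset.sum_congr rfl fun i _ => (B i).dim
    omega
  exact ⟨(LinearMap.injective_iff_surjective_of_finrank_eq_finrank hfin).2 hsurj, hsurj⟩

/-- The product of a family of products. -/
abbrev sigX {ι : Type} [Fintype ι] (X : ι → CMAV) : CMAV :=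
  ⟨Σ i, (X i).I, fun s => (X s.1).factor s.2⟩

/-- the homology -/
noncomputable def sigH {ι : Type} [Fintype ι] (X : ι → CMAV) :
    (sigX X).H1 ≃ₗ[ℚ] ∀ i, (X i).H1 :=
  LinearEquiv.piCurry ℚ fun (i : ι) (k : (X i).I) => ((X i).factor k).E

/-- the tangent space -/
noncomputable def sigT {ι : Type} [Fintype ι] (X : ι → CMAV) :
    (sigX X).Tan ≃ₗ[ℂ] ∀ i, (X i).Tan :=
  LinearEquiv.piCurry ℂ fun (i : ι) (k : (X i).I) => (((X i).factor k).Φ → ℂ)

theorem iso_core : ∀ (P : CMPair → Prop) (ι : Type) [Finite ι] (Y : AV) (B : ι → AV),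
    IsIsogenousToProd Y B → (∀ i, ∃ X : CMAV, (∀ k, P (X.factor k)) ∧ IsoCM (B i) X) →
    ∃ X : CMAV, (∀ k, P (X.factor k)) ∧ IsoCM Y X := by
  intro P ι _ Y B hY hX
  classical
  have := Fintype.ofFinite ι
  choose X hXP e C hC using hX
  obtain ⟨p, hp, hb⟩ := hY
  choose D hD using hp
  have hbij := tan_bij Y B p hb D hD
  refine ⟨sigX X, fun s => hXP s.1 s.2,
    ((LinearEquiv.ofBijective (LinearMap.pi p) hb).trans
      (LinearEquiv.piCongrRight e)).trans (sigH X).symm,
    ((LinearEquiv.ofBijective (LinearMap.pi D) hbij).trans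
      (LinearEquiv.piCongrRight C)).trans (sigT X).symm, fun w => ?_⟩
  apply (sigT X).injective
  have h0 : sigT X ((((LinearEquiv.ofBijective (LinearMap.pi D) hbij).trans
      (LinearEquiv.piCongrRight C)).trans (sigT X).symm) (Y.per w)) =
      fun i => C i (D i (Y.per w)) := (sigT X).apply_symm_apply _
  rw [h0]
  funext i
  rw [hD i w, hC i]
  rfl

end Pool.Agent.Q58.D3G
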