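import Mathlib
import Pool.Agent.Q180.UW.Defs

/-!
# Project D3G, job UNI
-/

set_option autoImplicit false

namespace Pool.Agent.Q58.D3G

open Polynomial Module
open Pool.Agent.Q60.D3 (AV IsHom)
open Pool.Agent.Q180.UW (IsUnitary mult)

lemma root_conj (P : ℚ[X]) (μ : ℂ) (h : aeval μ P = 0) : aeval (starRingEnd ℂ μ) P = 0 := by
  have := Polynomial.aeval_algHom_apply (RingHom.toRatAlgHom (starRingEnd ℂ)) μ P
  rw [h, map_zero] at this
  exact this

lemma even_deg (P : ℚ[X]) (hP : Irreducible P)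
    (h : ∀ μ : ℂ, aeval μ P = 0 → starRingEnd ℂ μ ≠ μ) : Even P.natDegree := by
  classical
  have hsep : P.Separable := hP.separable
  have hcard : Fintype.card (P.rootSet ℂ) = P.natDegree :=
    Polynomial.card_rootSet_eq_natDegree hsep (IsAlgClosed.splits _)
  have hmem : ∀ x : ℂ, x ∈ P.rootSet ℂ ↔ aeval x P = 0 := fun x => by
    rw [Polynomial.mem_rootSet]
    exact ⟨fun h => h.2, fun h => ⟨hP.ne_zero, h⟩⟩
  have h0 : ∑ _x ∈ (P.rootSet ℂ).toFinset, (1 : ZMod 2) = 0 := by
    refine Finset.sum_involution (fun x _ => starRingEnd ℂ x) ?_ ?_ ?_ ?_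
    · intro a _; decide
    · intro a ha _
      exact h a ((hmem a).mp (Set.mem_toFinset.mp ha))
    · intro a ha
      rw [Set.mem_toFinset] at ha ⊢
      exact (hmem _).mpr (root_conj P a ((hmem a).mp ha))
    · intro a _
      exact Complex.conj_conj a
  rw [Finset.sum_const, nsmul_eq_mul, mul_one, Set.toFinset_card, hcard] at h0
  exact (ZMod.natCast_eq_zero_iff_even).mp h0

lemma mult_add_le {T : Type} [AddCommGroup T] [Module ℂ T] [FiniteDimensional ℂ T]
    (C : T →ₗ[ℂ] T) (μ ν : ℂ) (h : μ ≠ ν) : mult C μ + mult C ν ≤ finrank ℂ T := by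
  unfold Pool.Agent.Q180.UW.mult
  apply Submodule.finrank_add_finrank_le_of_disjoint
  rw [Submodule.disjoint_def]
  intro x hx hy
  rw [LinearMap.mem_ker, LinearMap.sub_apply, LinearMap.smul_apply, LinearMap.id_apply,
    sub_eq_zero] at hx hy
  have h1 : (μ - ν) • x = 0 := by rw [sub_smul, ← hx, ← hy, sub_self]
  rcases smul_eq_zero.mp h1 with h2 | h2
  · exact absurd (sub_eq_zero.mp h2) h
  · exact h2

theorem uni_core (A : AV) (e M : ℕ) (hU : IsUnitary A e M) :
    (finrank ℂ A.T ≤ 3 → finrank ℂ A.T = 3 ∧ IsUnitary A 2 2) ∧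
    ((finrank ℂ A.T).Prime → e = 2) := by
  obtain ⟨P, φ, C, n, hcm, hC, hφ, hdim, hn, hcent, hmult, hcop⟩ := hU
  have hcm' := hcm
  obtain ⟨hirr, hdeg, r, hr⟩ := hcm'
  have hev : Even e := by
    rw [← hdeg]
    exact even_deg P hirr fun μ hμ => (hr μ hμ).1
  obtain ⟨e', he'⟩ := hev
  have hepos : 0 < e := by
    rw [← hdeg]
    exact hirr.natDegree_pos
  have hd : finrank ℂ A.T = e' * n := by
    have : 2 * finrank ℂ A.T = 2 * (e' * n) := by rw [hdim, he']; ring
    omega
  have he1 : 1 ≤ e' := by omega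
  constructor
  · intro hle
    have hn3 : n = 3 ∧ e' = 1 := by
      rw [hd] at hle
      have h1 : e' ≤ 1 := by
        by_contra hcon
        push Not at hcon
        nlinarith
      have h2 : e' = 1 := le_antisymm h1 he1
      subst h2
      omega
    have h3 : finrank ℂ A.T = 3 := by rw [hd, hn3.1, hn3.2]
    have he2 : e = 2 := by rw [he', hn3.2]
    refine ⟨h3, P, φ, C, n, he2 ▸ hcm, hC, hφ, he2 ▸ hdim, hn, hcent, fun μ hμ =>
      ⟨(hmult μ hμ).1, ?_⟩, hcop⟩
    have h4 := mult_add_le C μ (starRingEnd ℂ μ) (fun h => (hr μ hμ).1 h.symm)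
    have h5 := (hmult _ (root_conj P μ hμ)).1
    rw [h3] at h4
    omega
  · intro hp
    rw [hd] at hp
    have h1 : e' = 1 := by
      rcases (Nat.prime_mul_iff.mp hp) with h | h
      · omega
      · exact h.2
    omega

end Pool.Agent.Q58.D3G
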