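import Mathlib
import Pool.Agent.Q180.WT.Defs
import Pool.Agent.Q180.UW.Defs

/-!
# Project D3G, job W2W
-/

set_option autoImplicit false

namespace Pool.Agent.Q58.D3G

open Polynomial Module
open Pool.Agent.Q60.D3 (AV IsHom)

/-- Linear combinations of an endomorphism and the identity. -/
lemma isHom_comb {X : AV} {h : X.H →ₗ[ℚ] X.H} (hh : IsHom X X h) (s t : ℚ) :
    IsHom X X (s • h + t • LinearMap.id) := by
  obtain ⟨C, hC⟩ := hh
  refine ⟨(s : ℂ) • C + (t : ℂ) • LinearMap.id, fun w => ?_⟩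
  have h1 : ∀ (q : ℚ) (w : X.H), X.per (q • w) = (q : ℂ) • X.per w := by
    intro q w
    have := map_ratCast_smul X.per ℚ ℂ q w
    simpa using this
  simp only [LinearMap.add_apply, LinearMap.smul_apply, LinearMap.id_apply, map_add, h1, hC]

theorem w2w_core (M : ℕ) (Y : AV) (f : Y.H [⋀^Fin (2 * M)]→ₗ[ℚ] ℚ)
    (hf : Pool.Agent.Q180.UW.IsWeilClass 2 M Y f) : Pool.Agent.Q180.WT.IsWeilClass M Y f := by
  obtain ⟨hdim, hH, P, h, ⟨hirr, hdeg, r, hr⟩, hh, hP, hmove, B, χ, i, hB, hχ, hi, hi0, hiχ⟩ := hf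
  refine ⟨hdim, hH, ?_⟩
  set a := P.coeff 2 with ha
  set b := P.coeff 1 with hb
  set c := P.coeff 0 with hc
  have hPe : P = C a * X ^ 2 + C b * X + C c := by
    rw [Polynomial.as_sum_range_C_mul_X_pow P, hdeg]
    simp only [Finset.sum_range_succ, Finset.range_zero, Finset.sum_empty]
    rw [ha, hb, hc]
    ring
  have ha0 : a ≠ 0 := by
    intro h0
    have h1 : P.leadingCoeff = 0 := by rw [Polynomial.leadingCoeff, hdeg]; exact h0
    exact hirr.ne_zero (Polynomial.leadingCoeff_eq_zero.mp h1)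
  -- the discriminant
  set D : ℚ := b ^ 2 - 4 * a * c with hD
  have hDneg : D < 0 := by
    by_contra hcon
    push Not at hcon
    have hcon' : (0 : ℝ) ≤ (D : ℝ) := by exact_mod_cast hcon
    set ρ : ℝ := (-(b : ℝ) + Real.sqrt D) / (2 * a) with hρ
    have ha' : (a : ℝ) ≠ 0 := by exact_mod_cast ha0
    have hroot : (a : ℝ) * ρ ^ 2 + b * ρ + c = 0 := by
      have hs : Real.sqrt D ^ 2 = (D : ℝ) := Real.sq_sqrt hcon'
      have hD' : (D : ℝ) = (b : ℝ) ^ 2 - 4 * a * c := by rw [hD]; push_cast; ring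
      have h2 : 2 * (a : ℝ) * ρ + b = Real.sqrt D := by
        rw [hρ]; field_simp; ring
      have h3 : 4 * (a : ℝ) * ((a : ℝ) * ρ ^ 2 + b * ρ + c) = 0 := by
        have : 4 * (a : ℝ) * ((a : ℝ) * ρ ^ 2 + b * ρ + c) =
            (2 * (a : ℝ) * ρ + b) ^ 2 - ((b : ℝ) ^ 2 - 4 * a * c) := by ring
        rw [this, h2, hs, hD', sub_self]
      rcases mul_eq_zero.mp h3 with h4 | h4
      · exfalso
        exact (mul_ne_zero four_ne_zero ha') h4
      · exact h4
    have hz : aeval (ρ : ℂ) P = 0 := by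
      rw [hPe]
      simp only [map_add, map_mul, map_pow, aeval_C, aeval_X, eq_ratCast]
      have := congrArg (fun x : ℝ => (x : ℂ)) hroot
      simpa using this
    exact (hr _ hz).1 (Complex.conj_ofReal ρ)
  -- the natural number
  set q : ℕ := D.den with hq
  set p : ℕ := D.num.natAbs with hp
  have hqpos : 0 < q := D.den_pos
  have hnum : D.num < 0 := Rat.num_neg.mpr hDneg
  have hppos : 0 < p := Int.natAbs_pos.mpr hnum.ne
  have hpD : (p : ℚ) = -(D * q) := by
    have h1 : ((D.num.natAbs : ℤ) : ℚ) = ((-D.num : ℤ) : ℚ) := by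
      congr 1
      omega
    have h2 : (D.num : ℚ) = D * D.den := (Rat.mul_den_eq_num D).symm
    rw [hp, hq]
    rw [← Int.cast_natCast, h1, Int.cast_neg, h2]
  have key : ∀ w, (2 * a * q) • h ((2 * a * q) • h w + (b * q) • w) +
      (b * q) • ((2 * a * q) • h w + (b * q) • w) = -(((p * q : ℕ) : ℚ) • w) := by
    intro w
    have h0 : a • h (h w) + b • h w + c • w = 0 := by
      have := LinearMap.congr_fun hP w
      rw [hPe] at this
      simpa [Module.algebraMap_end_apply, pow_two] using this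
    have h1 : a • h (h w) = -(b • h w) - c • w := by
      rw [eq_sub_iff_add_eq, eq_neg_iff_add_eq_zero, ← h0]; abel
    have h2 : (2 * a * q) • h ((2 * a * q) • h w + (b * q) • w) =
        (4 * a * q ^ 2) • (a • h (h w)) + (2 * a * b * q ^ 2) • h w := by
      rw [map_add, map_smul, map_smul, smul_add, smul_smul, smul_smul, smul_smul]
      congr 1 <;> congr 1 <;> ring
    rw [h2, h1]
    have h3 : ((p * q : ℕ) : ℚ) = -((b ^ 2 - 4 * a * c) * q ^ 2) := by
      push_cast
      rw [hpD, hD]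
      ring
    rw [h3]
    module
  refine ⟨p * q, (2 * a * q) • h + (b * q) • LinearMap.id, Nat.mul_pos hppos hqpos,
    isHom_comb hh _ _, fun w => ?_, fun v k l => ?_, B, (2 * a * q) • χ + (b * q) • LinearMap.id,
    i, ?_, isHom_comb hχ _ _, hi, hi0, fun w => ?_⟩
  · simpa using key w
  · have e : ∀ k, f (Function.update v k
        (((2 * a * q) • h + (b * q) • LinearMap.id : Y.H →ₗ[ℚ] Y.H) (v k))) =
        (2 * a * q) * f (Function.update v k (h (v k))) + (b * q) * f v := by
      intro k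
      rw [LinearMap.add_apply, LinearMap.smul_apply, LinearMap.smul_apply, LinearMap.id_apply,
        f.map_update_add, f.map_update_smul, f.map_update_smul, Function.update_eq_self]
      simp
    rw [e k, e l, hmove v k l]
  · omega
  · rw [LinearMap.add_apply, LinearMap.smul_apply, LinearMap.smul_apply, LinearMap.id_apply,
      LinearMap.add_apply, LinearMap.smul_apply, LinearMap.smul_apply, LinearMap.id_apply,
      map_add, map_smul, map_smul, hiχ]

end Pool.Agent.Q58.D3G
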