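import Pool.Agent.Q60.D3G.StmA
import Pool.Agent.Q58.D3G.W2W
import Pool.Agent.Q58.D3G.Uni
import Pool.Agent.Q58.D3G.Iso

/-!
# Project D3G, jobs W2W, UNI and ISO
-/

set_option autoImplicit false

namespace Pool.Agent.Q58.D3G

theorem w2w : Pool.Agent.Q60.D3G.S_w2w := w2w_core

theorem uni : Pool.Agent.Q60.D3G.S_uni := uni_core

theorem iso : Pool.Agent.Q60.D3G.S_iso := iso_core

end Pool.Agent.Q58.D3G
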