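import Mathlib

/-!
# Project D3G, job LAP: the alternation of a product of determinants
-/

set_option autoImplicit false

namespace Pool.Agent.Q58.D3G

open Finset Equiv

lemma sign_single {m : ℕ} (n : Fin m → ℕ) (i : Fin m) (σ : Perm (Fin (n i))) :
    Perm.sign (Perm.sigmaCongrRight (Pi.mulSingle i σ : ∀ i, Perm (Fin (n i)))) = Perm.sign σ := by
  have hsw : ∀ x y : Fin (n i), (Perm.sigmaCongrRight
      (Pi.mulSingle i (swap x y) : ∀ i, Perm (Fin (n i)))) =
      swap (⟨i, x⟩ : Σ i, Fin (n i)) ⟨i, y⟩ := by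
    intro x y
    apply Equiv.ext
    rintro ⟨j, z⟩
    by_cases hj : j = i
    · subst hj
      have h1 : (Perm.sigmaCongrRight (Pi.mulSingle j (swap x y) : ∀ i, Perm (Fin (n i)))) ⟨j, z⟩ =
          ⟨j, swap x y z⟩ := by
        change (⟨j, (Pi.mulSingle j (swap x y) : ∀ i, Perm (Fin (n i))) j z⟩ : Σ i, Fin (n i)) = _
        rw [Pi.mulSingle_eq_same]
      rw [h1]
      have h2 : Function.Injective (fun z : Fin (n j) => (⟨j, z⟩ : Σ i, Fin (n i))) :=
        fun a b h => eq_of_heq (Sigma.mk.inj_iff.mp h).2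
      exact (h2.swap_apply x y z).symm
    · have h1 : (Perm.sigmaCongrRight (Pi.mulSingle i (swap x y) : ∀ i, Perm (Fin (n i)))) ⟨j, z⟩ =
          ⟨j, z⟩ := by
        change (⟨j, (Pi.mulSingle i (swap x y) : ∀ i, Perm (Fin (n i))) j z⟩ : Σ i, Fin (n i)) = _
        rw [Pi.mulSingle_eq_of_ne hj]
        rfl
      rw [h1, swap_apply_of_ne_of_ne]
      · intro h; exact hj (congrArg Sigma.fst h)
      · intro h; exact hj (congrArg Sigma.fst h)
  induction σ using Equiv.Perm.swap_induction_on with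
  | one =>
    rw [Pi.mulSingle_one, Perm.sigmaCongrRight_one, Perm.sign_one, Perm.sign_one]
  | swap_mul f x y hxy ih =>
    rw [Pi.mulSingle_mul, ← Perm.sigmaCongrRight_mul, Perm.sign_mul, Perm.sign_mul, ih, hsw,
      Perm.sign_swap hxy, Perm.sign_swap]
    intro h
    exact hxy (eq_of_heq (Sigma.mk.inj_iff.mp h).2)

lemma sign_sig {m : ℕ} (n : Fin m → ℕ) (π : ∀ i, Perm (Fin (n i))) :
    Perm.sign (Perm.sigmaCongrRight π) = ∏ i, Perm.sign (π i) := by
  have h : (Perm.sign.comp (Perm.sigmaCongrRightHom fun i => Fin (n i)) :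
      (∀ i, Perm (Fin (n i))) →* ℤˣ) =
      { toFun := fun π => ∏ i, Perm.sign (π i)
        map_one' := by simp
        map_mul' := fun a b => by simp [prod_mul_distrib] } := by
    apply MonoidHom.pi_ext
    intro i σ
    change Perm.sign (Perm.sigmaCongrRight (Pi.mulSingle i σ : ∀ i, Perm (Fin (n i)))) =
      ∏ j, Perm.sign ((Pi.mulSingle i σ : ∀ i, Perm (Fin (n i))) j)
    rw [sign_single, Finset.prod_eq_single i]
    · rw [Pi.mulSingle_eq_same]
    · intro j _ hj
      rw [Pi.mulSingle_eq_of_ne hj, Perm.sign_one]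
    · intro h; exact absurd (mem_univ i) h
  have := DFunLike.congr_fun h π
  exact this

theorem lap_core (H : Type) [AddCommGroup H] [Module ℚ H] (κ : Type) [Fintype κ] [DecidableEq κ]
    (m : ℕ) (n : Fin m → ℕ) (e : (Σ i : Fin m, Fin (n i)) ≃ κ) (ℓ : κ → (H →ₗ[ℚ] ℂ))
    (F G : MultilinearMap ℚ (fun _ : κ => H) ℂ)
    (hF : ∀ v, F v = ∏ i, (Matrix.of fun a b : Fin (n i) => ℓ (e ⟨i, b⟩) (v (e ⟨i, a⟩))).det)
    (hG : ∀ v, G v = ∏ k, ℓ k (v k)) :
    MultilinearMap.alternatization F =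
      ((∏ i, (n i).factorial : ℕ) : ℂ) • MultilinearMap.alternatization G := by
  let ρ : (∀ i, Perm (Fin (n i))) → Perm κ := fun π =>
    (e.symm.trans (Perm.sigmaCongrRight π)).trans e
  have hρe : ∀ π i a, ρ π (e ⟨i, a⟩) = e ⟨i, π i a⟩ := by
    intro π i a
    simp only [ρ, Equiv.trans_apply, Equiv.symm_apply_apply]
    rfl
  have hρs : ∀ π, Perm.sign (ρ π) = ∏ i, Perm.sign (π i) := by
    intro π
    rw [← sign_sig]
    exact Perm.sign_symm_trans_trans (Perm.sigmaCongrRight π) e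
  have hF' : ∀ v, F v = ∑ π : (∀ i, Perm (Fin (n i))),
      (((Perm.sign (ρ π) : ℤˣ) : ℤ) : ℂ) * G (fun k => v (ρ π k)) := by
    intro v
    rw [hF]
    simp_rw [Matrix.det_apply']
    rw [Finset.prod_univ_sum, Fintype.piFinset_univ]
    refine sum_congr rfl fun π _ => ?_
    rw [prod_mul_distrib, hρs, hG]
    congr 1
    · push_cast
      rfl
    · rw [← e.prod_comp, Fintype.prod_sigma]
      refine prod_congr rfl fun i _ => prod_congr rfl fun a _ => ?_
      rw [hρe]
      rfl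
  ext v
  rw [MultilinearMap.alternatization_apply, AlternatingMap.smul_apply,
    MultilinearMap.alternatization_apply]
  simp_rw [MultilinearMap.domDomCongr_apply, hF']
  have h1 : ∀ π : (∀ i, Perm (Fin (n i))), ∑ σ : Perm κ, Perm.sign σ •
      ((((Perm.sign (ρ π) : ℤˣ) : ℤ) : ℂ) * G (fun k => v (σ (ρ π k)))) =
      ∑ σ : Perm κ, Perm.sign σ • G (fun k => v (σ k)) := by
    intro π
    rw [← Equiv.sum_comp (Equiv.mulRight (ρ π)) (fun σ => Perm.sign σ • G (fun k => v (σ k)))]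
    refine sum_congr rfl fun σ _ => ?_
    rw [Equiv.coe_mulRight, Perm.sign_mul, mul_smul]
    congr 1
    rcases Int.units_eq_one_or (Perm.sign (ρ π)) with h | h <;> rw [h] <;> simp
  simp_rw [Finset.smul_sum]
  rw [Finset.sum_comm]
  rw [Finset.sum_congr rfl fun π _ => h1 π, sum_const, nsmul_eq_mul, ← Finset.smul_sum, smul_eq_mul]
  congr 2
  rw [Finset.card_univ, Fintype.card_pi]
  simp [Fintype.card_perm]

end Pool.Agent.Q58.D3G
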