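import Pool.Agent.Q60.D3G.StmA
import Pool.Agent.Q58.D3G.LapCore

/-!
# Project D3G, job LAP
-/

set_option autoImplicit false

namespace Pool.Agent.Q58.D3G

theorem lap : Pool.Agent.Q60.D3G.S_lap := by
  intro H _ _ κ _ _ m n e ℓ F G hF hG
  exact lap_core H κ m n e ℓ F G hF hG

end Pool.Agent.Q58.D3G
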