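import Pool.Agent.Q60.D3G.StmA
import Pool.Agent.Q121.WT.Gen1

/-!
# Project D3G, job TRC
-/

set_option autoImplicit false

namespace Pool.Agent.Q58.D3G

open NumberField Module
open Pool.Agent.W547.KB (CMAV Wt mono trForm trForm_apply)
open Pool.Agent.Q60.D3 (AV cx)
open Pool.Agent.Q180.WT (Gen GC)

/-- The conjugate of a complex valued form. -/
noncomputable def cj {H κ : Type} [AddCommGroup H] [Module ℚ H] (σ : ℂ ≃+* ℂ)
    (F : H [⋀^κ]→ₗ[ℚ] ℂ) : H [⋀^κ]→ₗ[ℚ] ℂ :=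
  ((σ : ℂ →+* ℂ).toRatAlgHom.toLinearMap).compAlternatingMap F

lemma cj_apply {H κ : Type} [AddCommGroup H] [Module ℚ H] (σ : ℂ ≃+* ℂ)
    (F : H [⋀^κ]→ₗ[ℚ] ℂ) (v : κ → H) : cj σ F v = σ (F v) := rfl

lemma gc_cj (𝒟 : Set ℕ) (X : AV) (κ : Type) (σ : ℂ ≃+* ℂ) (F : X.H [⋀^κ]→ₗ[ℚ] ℂ)
    (hF : F ∈ GC 𝒟 X κ) : cj σ F ∈ GC 𝒟 X κ := by
  unfold Pool.Agent.Q180.WT.GC at hF
  induction hF using Submodule.span_induction with
  | mem F h =>
    obtain ⟨f, hf, rfl⟩ := h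
    have e : cj σ (cx f) = cx f := by
      ext v
      rw [cj_apply]
      change σ ((f v : ℚ) : ℂ) = ((f v : ℚ) : ℂ)
      exact map_ratCast σ _
    rw [e]
    exact Submodule.subset_span ⟨f, hf, rfl⟩
  | zero =>
    have e : cj σ (0 : X.H [⋀^κ]→ₗ[ℚ] ℂ) = 0 := by
      ext v
      rw [cj_apply]
      exact map_zero σ
    rw [e]
    exact Submodule.zero_mem _
  | add F G _ _ h1 h2 =>
    have e : cj σ (F + G) = cj σ F + cj σ G := by
      ext v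
      exact map_add σ _ _
    rw [e]
    exact Submodule.add_mem _ h1 h2
  | smul c F _ h1 =>
    have e : cj σ (c • F) = σ c • cj σ F := by
      ext v
      exact map_mul σ _ _
    rw [e]
    exact Submodule.smul_mem _ _ h1

theorem trc : Pool.Agent.Q60.D3G.S_trc := by
  intro 𝒟 X L _ _ _ _ j κ _ _ I G hG hGC α
  refine Pool.Agent.Q121.WT.desc 𝒟 _ κ _ ?_
  choose σ hσ using fun τ : L ≃ₐ[ℚ] L => Pool.Agent.H977R3.CM.exists_aut j τ.toRingEquiv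
  have e : (cx (trForm α I) : (Pool.Agent.Q60.D3G.av X).H [⋀^κ]→ₗ[ℚ] ℂ) =
      ∑ τ : L ≃ₐ[ℚ] L, cj (σ τ) (j α • G) := by
    ext v
    have hs : ∀ (s : Finset (L ≃ₐ[ℚ] L)) (g : (L ≃ₐ[ℚ] L) →
        (Pool.Agent.Q60.D3G.av X).H [⋀^κ]→ₗ[ℚ] ℂ), (∑ τ ∈ s, g τ) v = ∑ τ ∈ s, g τ v := by
      classical
      intro s g
      induction s using Finset.induction_on with
      | empty => simp
      | insert a s ha ih => rw [Finset.sum_insert ha, Finset.sum_insert ha, ← ih]; rfl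
    rw [hs]
    change (((trForm α I v : ℚ)) : ℂ) = ∑ τ : L ≃ₐ[ℚ] L, σ τ (j α * G v)
    have h1 : ∀ τ : L ≃ₐ[ℚ] L, σ τ (j α * G v) = j (τ (α * mono I v)) := by
      intro τ
      rw [hG v, ← map_mul, hσ τ]
      rfl
    simp only [h1]
    rw [← map_sum, ← trace_eq_sum_automorphisms, eq_ratCast, map_ratCast, trForm_apply]
  rw [e]
  exact Submodule.sum_mem _ fun τ _ => gc_cj 𝒟 _ κ (σ τ) _ (Submodule.smul_mem _ _ hGC)

end Pool.Agent.Q58.D3G
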